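import Pool.Agent.Helper63.QP2.M_MBC
import Pool.Agent.Helper20.QP.St3

/-!
# Project QD (MP_d112a4_gt), part P, module MBC of Helper20/QP/St3.lean: from StMBC of QP2
-/

set_option autoImplicit false

open Filter Topology Matrix Set Metric MeasureTheory
open scoped ComplexConjugate ENNReal

namespace Pool.Agent.Helper63.QP2

open Pool.Agent.Helper35.PM (hs Mat SL IsDiscrete SurfaceGroup Adapted IsQF HolDisc pressureDist)
open Pool.Agent.Helper68.QC (nq Bel InvB Intw mob den)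
open Pool.Agent.Helper68.QS (Intw2)

/-- `StMBC` of helper20 (part P, statements 3) from `StMBC` of QP2 -/
theorem qpMBC_of (hMBC : Pool.Agent.Helper63.QP2.StMBC) : Pool.Agent.Helper20.QP.StMBC := by
  intro k hk μ hμ C
  obtain ⟨hb, hrel, C', hC, h⟩ := hMBC k hk μ hμ C
  refine ⟨pbk C μ, C', hb, hrel, ?_, fun X Y hXY => (h X Y hXY).1⟩
  intro z hz
  exact ⟨fun h0 => hz ((hC.1 z).2 h0), hC.2.1 z hz⟩

theorem qpMBC (hGEV : Pool.Agent.Helper68.QS.StGEV) (hEQI : Pool.Agent.Helper68.QS.StEQI) :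
    Pool.Agent.Helper20.QP.StMBC := qpMBC_of (pMBC hGEV hEQI pI2C)

end Pool.Agent.Helper63.QP2
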