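import Pool.Agent.Helper20.QP.AsmP
import Pool.Agent.Helper63.QP2.M_MBC2
import Pool.Agent.Helper52.QP2.M_SWP
import Pool.Agent.Helper76.QP2.M_LLF
import Pool.Agent.Helper72.QP2.M_NSH
import Pool.Agent.Helper64.QP2.M_ITI
import Pool.Agent.Helper11.QP2.M_ITR
import Pool.Agent.Helper40.QS.M_GEV
import Pool.Agent.Helper62.QS.M_EQI
import Pool.Agent.Helper79.QE.PSUB
import Pool.Agent.Helper68.QCA.Main
import Pool.Agent.Helper14.QL.M_FPC
import Pool.Agent.Helper6.QA.M_TFR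
import Pool.Agent.Helper13.PM.M_SY

/-!
# Project QD (MP_d112a4_gt), PART P: from the opening of one short curve to `StOPN`, assembly
-/

set_option autoImplicit false

namespace Pool.Agent.Helper63.QP2

open Pool.Agent.Helper20.QP

theorem p_GEV : Pool.Agent.Helper68.QS.StGEV :=
  Pool.Agent.Helper40.QS.pGEV Pool.Agent.Helper68.QCA.EX Pool.Agent.Helper68.QCA.FAC
    Pool.Agent.Helper68.QCA.PRE Pool.Agent.Helper68.QCA.AFF

theorem p_EQI : Pool.Agent.Helper68.QS.StEQI :=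
  Pool.Agent.Helper62.QS.pEQI Pool.Agent.Helper68.QCA.CVM Pool.Agent.Helper68.QCA.PRW
    Pool.Agent.Helper68.QCA.CHR Pool.Agent.Helper68.QCA.UNW Pool.Agent.Helper79.QE.pSUB

theorem p_MBC : Pool.Agent.Helper63.QP2.StMBC := pMBC p_GEV p_EQI pI2C

theorem p_QPMBC : Pool.Agent.Helper20.QP.StMBC := qpMBC p_GEV p_EQI

theorem p_FPC : Pool.Agent.Helper17.QD.StFPC := Pool.Agent.Helper14.QL.hFPC Pool.Agent.Helper20.QD.b_SUB

theorem p_SWP : StSWP := Pool.Agent.Helper52.QP2.pSWP p_FPC p_MBC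

theorem p_LLF : StLLF := Pool.Agent.Helper76.QP2.pLLF pQP_CEN

theorem p_TFR : Pool.Agent.Helper86.QA.StTFR := Pool.Agent.Helper6.QA.hTFR

theorem p_NSH (hAIN : Pool.Agent.Helper86.QA.StAIN) (hAFD : Pool.Agent.Helper86.QA.StAFD) :
    StNSH := Pool.Agent.Helper72.QP2.pNSH pQP_NCL p_LLF hAIN hAFD p_TFR

theorem p_ITI : StITI := Pool.Agent.Helper64.QP2.pITI p_LLF Pool.Agent.Helper13.PM.sy

/-- opening of one short curve implies `StOPN` -/
theorem p_ITR (hAIN : Pool.Agent.Helper86.QA.StAIN) (hAFD : Pool.Agent.Helper86.QA.StAFD) :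
    StITR := Pool.Agent.Helper11.QP2.pITR (p_NSH hAIN hAFD) p_SWP p_ITI p_LLF
  Pool.Agent.Helper13.PM.sy p_TFR

/-- `StOPN` from the opening of one short curve -/
theorem OPN_of (hOP1 : StOP1) (hAIN : Pool.Agent.Helper86.QA.StAIN)
    (hAFD : Pool.Agent.Helper86.QA.StAFD) : Pool.Agent.Helper17.QD.StOPN :=
  p_ITR hAIN hAFD hOP1

end Pool.Agent.Helper63.QP2
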