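import Pool.Agent.Helper63.QP2.St1

/-!
# Project QD (MP_d112a4_gt), QP2, module I2C: composition and inverse of intertwinings
-/

set_option autoImplicit false

open Filter Topology Matrix Set Metric MeasureTheory
open scoped ComplexConjugate ENNReal

namespace Pool.Agent.Helper63.QP2

open Pool.Agent.Helper35.PM (hs Mat SL IsDiscrete SurfaceGroup Adapted IsQF HolDisc pressureDist)
open Pool.Agent.Helper68.QC (nq Bel InvB Intw mob den)
open Pool.Agent.Helper68.QS (Intw2)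

theorem det1 (A : SL) : A 0 0 * A 1 1 - A 0 1 * A 1 0 = 1 := by
  have h := A.det_coe
  rw [Matrix.det_fin_two] at h
  exact h

theorem mul_ij (A A' : SL) (i j : Fin 2) : (A * A') i j = A i 0 * A' 0 j + A i 1 * A' 1 j := by
  rw [Matrix.SpecialLinearGroup.coe_mul, Matrix.mul_apply, Fin.sum_univ_two]

theorem inv00 (A : SL) : A⁻¹ 0 0 = A 1 1 := by
  rw [Matrix.SpecialLinearGroup.coe_inv, Matrix.adjugate_fin_two]; rfl
theorem inv01 (A : SL) : A⁻¹ 0 1 = - A 0 1 := by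
  rw [Matrix.SpecialLinearGroup.coe_inv, Matrix.adjugate_fin_two]; rfl
theorem inv10 (A : SL) : A⁻¹ 1 0 = - A 1 0 := by
  rw [Matrix.SpecialLinearGroup.coe_inv, Matrix.adjugate_fin_two]; rfl
theorem inv11 (A : SL) : A⁻¹ 1 1 = A 0 0 := by
  rw [Matrix.SpecialLinearGroup.coe_inv, Matrix.adjugate_fin_two]; rfl

theorem den_mul0 (A A' : SL) (z : ℂ) :
    den (A * A') z = A 1 0 * (A' 0 0 * z + A' 0 1) + A 1 1 * den A' z := by
  unfold den
  rw [mul_ij, mul_ij]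
  ring

theorem num_mul0 (A A' : SL) (z : ℂ) :
    (A * A') 0 0 * z + (A * A') 0 1 = A 0 0 * (A' 0 0 * z + A' 0 1) + A 0 1 * den A' z := by
  unfold den
  rw [mul_ij, mul_ij]
  ring

theorem den_mul1 (A A' : SL) (z : ℂ) (h : den A' z ≠ 0) :
    den (A * A') z = den A (mob A' z) * den A' z := by
  rw [den_mul0]
  have h1 : mob A' z * den A' z = A' 0 0 * z + A' 0 1 := by
    unfold mob
    rw [div_mul_cancel₀ _ h]
  rw [← h1]
  change _ = (A 1 0 * mob A' z + A 1 1) * den A' z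
  ring

theorem mob_mul1 (A A' : SL) (z : ℂ) (h : den A' z ≠ 0) :
    mob (A * A') z = mob A (mob A' z) := by
  have h1 : mob A' z * den A' z = A' 0 0 * z + A' 0 1 := by
    unfold mob
    rw [div_mul_cancel₀ _ h]
  have h2 : (A * A') 0 0 * z + (A * A') 0 1 = (A 0 0 * mob A' z + A 0 1) * den A' z := by
    rw [num_mul0, ← h1]
    ring
  calc mob (A * A') z = ((A * A') 0 0 * z + (A * A') 0 1) / den (A * A') z := rfl
    _ = (A 0 0 * mob A' z + A 0 1) * den A' z / (den A (mob A' z) * den A' z) := by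
        rw [h2, den_mul1 A A' z h]
    _ = (A 0 0 * mob A' z + A 0 1) / den A (mob A' z) := mul_div_mul_right _ _ h
    _ = mob A (mob A' z) := rfl

theorem num_ne (A : SL) (z : ℂ) (h : den A z = 0) : A 0 0 * z + A 0 1 ≠ 0 := by
  intro h1
  have h2 := det1 A
  unfold den at h
  have h3 : (1 : ℂ) = 0 := by
    linear_combination (-1 : ℂ) * h2 + A 0 0 * h - A 1 0 * h1
  exact one_ne_zero h3

theorem mob_mul2 (A A' : SL) (z : ℂ) (h : den A' z = 0) :
    mob (A * A') z = A 0 0 / A 1 0 := by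
  calc mob (A * A') z = ((A * A') 0 0 * z + (A * A') 0 1) / den (A * A') z := rfl
    _ = A 0 0 * (A' 0 0 * z + A' 0 1) / (A 1 0 * (A' 0 0 * z + A' 0 1)) := by
        rw [num_mul0, den_mul0, h, mul_zero, add_zero, mul_zero, add_zero]
    _ = A 0 0 / A 1 0 := mul_div_mul_right _ _ (num_ne A' z h)

theorem inf1 (A A' : SL) (h : A' 1 0 ≠ 0) :
    (A * A') 1 0 = den A (A' 0 0 / A' 1 0) * A' 1 0 ∧
      (A * A') 0 0 / (A * A') 1 0 = mob A (A' 0 0 / A' 1 0) := by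
  have h1 : (A * A') 1 0 = den A (A' 0 0 / A' 1 0) * A' 1 0 := by
    rw [mul_ij]
    unfold den
    rw [add_mul, mul_assoc, div_mul_cancel₀ _ h]
  refine ⟨h1, ?_⟩
  have h2 : (A * A') 0 0 = (A 0 0 * (A' 0 0 / A' 1 0) + A 0 1) * A' 1 0 := by
    rw [mul_ij, add_mul, mul_assoc, div_mul_cancel₀ _ h]
  rw [h1, h2, mul_div_mul_right _ _ h]
  rfl

theorem inf2 (A A' : SL) (h : A' 1 0 = 0) :
    A' 0 0 ≠ 0 ∧ (A * A') 1 0 = A 1 0 * A' 0 0 ∧
      (A * A') 0 0 / (A * A') 1 0 = A 0 0 / A 1 0 := by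
  have h0 : A' 0 0 ≠ 0 := by
    intro h1
    have h2 := det1 A'
    rw [h, h1] at h2
    simp at h2
  have h1 : (A * A') 1 0 = A 1 0 * A' 0 0 := by
    rw [mul_ij, h, mul_zero, add_zero]
  have h2 : (A * A') 0 0 = A 0 0 * A' 0 0 := by
    rw [mul_ij, h, mul_zero, add_zero]
  refine ⟨h0, h1, ?_⟩
  rw [h1, h2, mul_div_mul_right _ _ h0]

theorem den_inv_mob (A : SL) (z : ℂ) (h : den A z ≠ 0) : den A⁻¹ (mob A z) * den A z = 1 := by
  rw [← den_mul1 A⁻¹ A z h, inv_mul_cancel]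
  unfold den
  simp

theorem mob_inv_mob (A : SL) (z : ℂ) (h : den A z ≠ 0) : mob A⁻¹ (mob A z) = z := by
  rw [← mob_mul1 A⁻¹ A z h, inv_mul_cancel]
  unfold mob den
  simp

theorem den_mob_inv (A : SL) (y : ℂ) (h : den A⁻¹ y ≠ 0) : den A (mob A⁻¹ y) * den A⁻¹ y = 1 := by
  have := den_inv_mob A⁻¹ y h
  rwa [inv_inv] at this

theorem mob_mob_inv (A : SL) (y : ℂ) (h : den A⁻¹ y ≠ 0) : mob A (mob A⁻¹ y) = y := by
  have := mob_inv_mob A⁻¹ y h
  rwa [inv_inv] at this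

private theorem part1 (A B A' B' : SL) (w₁ w₂ w₃ : ℂ ≃ₜ ℂ) (h' : Intw2 A B w₁ w₂)
    (h : Intw2 A' B' w₂ w₃) : Intw2 (A' * A) (B' * B) w₁ w₃ := by
  obtain ⟨h1, h2, h3, h4⟩ := h
  obtain ⟨h1', h2', h3', h4'⟩ := h'
  refine ⟨?_, ?_, ?_, ?_⟩
  · intro z
    by_cases hz : den A z = 0
    · have hw : den B (w₁ z) = 0 := (h1' z).1 hz
      rw [den_mul0, den_mul0, hz, hw, mul_zero, mul_zero, add_zero, add_zero,
        mul_eq_zero_iff_right (num_ne A z hz), mul_eq_zero_iff_right (num_ne B (w₁ z) hw)]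
      exact h3
    · have hw : den B (w₁ z) ≠ 0 := fun h => hz ((h1' z).2 h)
      rw [den_mul1 A' A z hz, den_mul1 B' B (w₁ z) hw, mul_eq_zero_iff_right hz,
        mul_eq_zero_iff_right hw, ← h2' z hz]
      exact h1 _
  · intro z hd
    by_cases hz : den A z = 0
    · have hw : den B (w₁ z) = 0 := (h1' z).1 hz
      rw [den_mul0, hz, mul_zero, add_zero] at hd
      rw [mob_mul2 A' A z hz, mob_mul2 B' B (w₁ z) hw]
      exact h4 (left_ne_zero_of_mul hd)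
    · have hw : den B (w₁ z) ≠ 0 := fun h => hz ((h1' z).2 h)
      rw [den_mul1 A' A z hz] at hd
      rw [mob_mul1 A' A z hz, mob_mul1 B' B (w₁ z) hw, h2 _ (left_ne_zero_of_mul hd), h2' z hz]
  · by_cases hz : A 1 0 = 0
    · have hw : B 1 0 = 0 := h3'.1 hz
      obtain ⟨a1, a2, -⟩ := inf2 A' A hz
      obtain ⟨b1, b2, -⟩ := inf2 B' B hw
      rw [a2, b2, mul_eq_zero_iff_right a1, mul_eq_zero_iff_right b1]
      exact h3
    · have hw : B 1 0 ≠ 0 := fun h => hz (h3'.2 h)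
      rw [(inf1 A' A hz).1, (inf1 B' B hw).1, mul_eq_zero_iff_right hz, mul_eq_zero_iff_right hw,
        ← h4' hz]
      exact h1 _
  · intro hd
    by_cases hz : A 1 0 = 0
    · have hw : B 1 0 = 0 := h3'.1 hz
      obtain ⟨a1, a2, a3⟩ := inf2 A' A hz
      obtain ⟨b1, b2, b3⟩ := inf2 B' B hw
      rw [a2] at hd
      rw [a3, b3]
      exact h4 (left_ne_zero_of_mul hd)
    · have hw : B 1 0 ≠ 0 := fun h => hz (h3'.2 h)
      rw [(inf1 A' A hz).1] at hd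
      rw [(inf1 A' A hz).2, (inf1 B' B hw).2, h2 _ (left_ne_zero_of_mul hd), h4' hz]

/-- the pole of the inverse -/
theorem den_inv_zero (A : SL) (y : ℂ) : den A⁻¹ y = 0 ↔ (A 1 0 ≠ 0 ∧ y = A 0 0 / A 1 0) := by
  have e : den A⁻¹ y = - A 1 0 * y + A 0 0 := by
    unfold den
    rw [inv10, inv11]
  rw [e]
  constructor
  · intro h
    have hc : A 1 0 ≠ 0 := by
      intro hc
      rw [hc] at h
      have ha : A 0 0 = 0 := by simpa using h
      have := det1 A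
      rw [hc, ha] at this
      simp at this
    refine ⟨hc, ?_⟩
    rw [eq_div_iff hc]
    linear_combination -h
  · rintro ⟨hc, rfl⟩
    field_simp
    ring

private theorem part2 (A B : SL) (w₁ w₂ : ℂ ≃ₜ ℂ) (h : Intw2 A B w₁ w₂) :
    Intw2 A⁻¹ B⁻¹ w₂ w₁ := by
  obtain ⟨h1, h2, h3, h4⟩ := h
  have hz : ∀ y, den A⁻¹ y = 0 ↔ den B⁻¹ (w₂ y) = 0 := by
    intro y
    rw [den_inv_zero, den_inv_zero]
    constructor
    · rintro ⟨hc, rfl⟩
      exact ⟨fun h => hc (h3.2 h), h4 hc⟩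
    · rintro ⟨hc, hy⟩
      have hc' : A 1 0 ≠ 0 := fun h => hc (h3.1 h)
      refine ⟨hc', ?_⟩
      apply w₂.injective
      rw [hy, h4 hc']
  refine ⟨hz, ?_, ?_, ?_⟩
  · intro y hy
    have hy2 : den B⁻¹ (w₂ y) ≠ 0 := fun h => hy ((hz y).2 h)
    have e1 := den_mob_inv A y hy
    have hz1 : den A (mob A⁻¹ y) ≠ 0 := left_ne_zero_of_mul (by rw [e1]; exact one_ne_zero)
    have e2 := h2 _ hz1
    rw [mob_mob_inv A y hy] at e2
    have hz2 : den B (w₁ (mob A⁻¹ y)) ≠ 0 := fun h => hz1 ((h1 _).2 h)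
    rw [e2, mob_inv_mob B _ hz2]
  · rw [inv10, inv10, neg_eq_zero, neg_eq_zero]
    exact h3
  · intro hc
    rw [inv10, neg_ne_zero] at hc
    have hc' : B 1 0 ≠ 0 := fun h => hc (h3.2 h)
    rw [inv00, inv10, inv00, inv10]
    have e0 : den A (A 1 1 / -A 1 0) = 0 := by
      unfold den
      field_simp
      ring
    have e1 := (h1 _).1 e0
    have e2 : B 1 0 * w₁ (A 1 1 / -A 1 0) + B 1 1 = 0 := e1
    rw [eq_div_iff (neg_ne_zero.2 hc')]
    linear_combination -e2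

theorem pI2C : Pool.Agent.Helper63.QP2.StI2C := ⟨part1, part2, fun _ _ _ => Iff.rfl⟩

end Pool.Agent.Helper63.QP2
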