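import Pool.Agent.Helper63.QP2.M_I2C

/-!
# Project QD (MP_d112a4_gt), QP2, module MBC: Moebius change of the coordinate of a deformation
-/

set_option autoImplicit false

open Filter Topology Matrix Set Metric MeasureTheory
open scoped ComplexConjugate ENNReal

namespace Pool.Agent.Helper63.QP2

open Pool.Agent.Helper35.PM (hs Mat SL IsDiscrete SurfaceGroup Adapted IsQF HolDisc pressureDist)
open Pool.Agent.Helper68.QC (nq Bel InvB Intw mob den)
open Pool.Agent.Helper68.QS (Intw2)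

theorem measurable_den (A : SL) : Measurable (den A) := by
  unfold den
  fun_prop

theorem measurable_mob (A : SL) : Measurable (mob A) := by
  unfold mob
  exact ((measurable_id.const_mul _).add_const _).div (measurable_den A)

theorem norm_fac_le (d : ℂ) : ‖d ^ 2 / conj d ^ 2‖ ≤ 1 := by
  rw [norm_div, norm_pow, norm_pow, Complex.norm_conj]
  exact div_self_le_one _

theorem bel_pbk (k : ℝ) (μ : ℂ → ℂ) (h : Bel k μ) (C : SL) : Bel k (pbk C μ) := by
  constructor
  · unfold pbk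
    have h1 : Measurable fun y => μ (mob C⁻¹ y) := h.meas.comp (measurable_mob _)
    have h2 : Measurable fun y : ℂ => den C⁻¹ y ^ 2 := (measurable_den _).pow_const 2
    have h3 : Measurable fun y : ℂ => conj (den C⁻¹ y) ^ 2 :=
      (Complex.continuous_conj.measurable.comp (measurable_den _)).pow_const 2
    exact h1.mul (h2.div h3)
  · intro y
    unfold pbk
    rw [norm_mul]
    calc ‖μ (mob C⁻¹ y)‖ * ‖den C⁻¹ y ^ 2 / conj (den C⁻¹ y) ^ 2‖
        ≤ ‖μ (mob C⁻¹ y)‖ * 1 := by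
          apply mul_le_mul_of_nonneg_left (norm_fac_le _) (norm_nonneg _)
      _ ≤ k := by rw [mul_one]; exact h.le _

/-- the denominator vanishes at most at one point -/
theorem ae_den_ne (A : SL) : ∀ᵐ z : ℂ, den A z ≠ 0 := by
  have hs : {z : ℂ | den A z = 0}.Subsingleton := by
    intro x hx y hy
    have hx' : A 1 0 * x + A 1 1 = 0 := hx
    have hy' : A 1 0 * y + A 1 1 = 0 := hy
    have hc : A 1 0 ≠ 0 := by
      intro hc
      rw [hc, zero_mul, zero_add] at hx'
      have := det1 A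
      rw [hc, hx'] at this
      simp at this
    have : A 1 0 * (x - y) = 0 := by linear_combination hx' - hy'
    rcases mul_eq_zero.1 this with h | h
    · exact absurd h hc
    · exact sub_eq_zero.1 h
  have h0 : volume {z : ℂ | den A z = 0} = 0 := hs.measure_zero _
  rw [ae_iff]
  simpa using h0

theorem pbk_rel (C : SL) (μ : ℂ → ℂ) (z : ℂ) (hz : den C z ≠ 0) :
    pbk C μ (mob C z) * den C z ^ 2 = μ z * conj (den C z) ^ 2 := by
  have e1 := den_inv_mob C z hz
  have e2 : den C⁻¹ (mob C z) = (den C z)⁻¹ := eq_inv_of_mul_eq_one_left e1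
  unfold pbk
  rw [mob_inv_mob C z hz, e2, map_inv₀]
  have hc : conj (den C z) ≠ 0 := (map_ne_zero _).2 hz
  field_simp

theorem pMBC (hGEV : Pool.Agent.Helper68.QS.StGEV) (hEQI : Pool.Agent.Helper68.QS.StEQI)
    (hI2C : Pool.Agent.Helper63.QP2.StI2C) : Pool.Agent.Helper63.QP2.StMBC := by
  intro k hk μ hμ C
  have hb := bel_pbk k μ hμ C
  have hrel : ∀ᵐ z : ℂ, pbk C μ (mob C z) * den C z ^ 2 = μ z * conj (den C z) ^ 2 := by
    filter_upwards [ae_den_ne C] with z hz
    exact pbk_rel C μ z hz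
  refine ⟨hb, hrel, ?_⟩
  obtain ⟨C'', hC⟩ := hGEV k hk μ (pbk C μ) hμ hb C hrel
  refine ⟨C'', hC, ?_⟩
  intro X Y hXY
  have h1 : Intw2 X Y (nq μ) (nq μ) := (hI2C.2.2 X Y (nq μ)).2 hXY
  have h2 := hI2C.2.1 C C'' (nq μ) (nq (pbk C μ)) hC
  have h3 := hI2C.1 _ _ _ _ _ _ _ h2 h1
  have h4 := hI2C.1 _ _ _ _ _ _ _ h3 hC
  have h5 : Intw (C * X * C⁻¹) (C'' * Y * C''⁻¹) (nq (pbk C μ)) := by
    rw [mul_assoc, mul_assoc]
    exact (hI2C.2.2 _ _ _).1 h4
  exact ⟨h5, hEQI k hk _ hb _ _ h5⟩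

end Pool.Agent.Helper63.QP2
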