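import Pool.Agent.Helper20.QP.Defs2
import Pool.Agent.Helper68.QS.St1
import Pool.Agent.Helper86.QA.St5
import Pool.Agent.Helper35.PQF.St3

/-!
# Project QD (MP_d112a4_gt), PART P: the change of the coordinate of the sphere, exchange of the
# inside and the outside, and the induction over the short classes.  Statements.

Owner: helper63 (for helper20, helper17).  Every statement has its complete proof in the docstring.

* `pbk C μ`: the Beltrami coefficient `μ` in the coordinate `mob C`.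
* `StMBC`: general Moebius change of the coordinate of a deformation.
* `StSWP`: helper17's states (`Sta`, the end `X` outside) and helper20's states (`StI`, the end `X`
  inside) correspond to each other.
* `StITR`: opening of one short curve (`StOP1`) implies `StOPN`.
-/

set_option autoImplicit false

open Filter Topology Matrix Set Metric MeasureTheory
open scoped ComplexConjugate ENNReal

namespace Pool.Agent.Helper63.QP2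

open Pool.Agent.Helper35.PM (hs Mat SL IsDiscrete SurfaceGroup Adapted IsQF HolDisc pressureDist)
open Pool.Agent.Helper20.QD (Fuch cj IsSU D DD SS)
open Pool.Agent.Helper68.QC (nq Bel InvB Intw mob den)
open Pool.Agent.Helper68.QS (Intw2)
open Pool.Agent.Helper20.QP (Prim Cj TF FD sh ll StI StOP1 StNCL StCEN)
open Pool.Agent.Helper17.QD (Sta cc pre Thk StFPC StOPN)

/-- The Beltrami coefficient `μ` in the coordinate `y = mob C z`: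
`pbk C μ (mob C z) * (den C z)² = μ z * conj (den C z)²`. -/
noncomputable def pbk (C : SL) (μ : ℂ → ℂ) (y : ℂ) : ℂ :=
  μ (mob C⁻¹ y) * (den C⁻¹ y ^ 2 / conj (den C⁻¹ y) ^ 2)

/-- `J = [[0, i], [i, 0]]`, `mob J z = 1/z`. -/
noncomputable def JJ : SL := ⟨!![0, Complex.I; Complex.I, 0], by simp [Matrix.det_fin_two]⟩

/-- Among any `n + 1` primitive elements of translation length `< ε` there are two conjugate ones
(up to inversion). -/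
def Short {Γ : Type} [Group Γ] (σ : Γ →* SL) (ε : ℝ) (n : ℕ) : Prop :=
  ∀ a : Fin (n + 1) → Γ, (∀ i, Prim (a i) ∧ ll (σ (a i)) < ε) → ∃ i j, i ≠ j ∧ Cj (a i) (a j)

/-- I2C (about 150 lines)
(Composition and inverse of intertwinings.)  Compare the statement `StITW` of Helper68/QC/St4.lean (proof:
`pITW`, Pool/Agent/Helper39/QCM/M_ITW.lean, which is the case `w₁ = w₂ = w₃`).
Proof. `A = [[a,b],[c,d]]`, `A' = [[a',b'],[c',d']]`.  (1) `den (A' * A) z = den A' (mob A z) * den A z` if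
`den A z ≠ 0`.  If `den A z ≠ 0` then `den B (w₁ z) ≠ 0`, `w₂ (mob A z) = mob B (w₁ z)`, so
`den (A' * A) z = 0` iff `den A' (mob A z) = 0` iff `den B' (mob B (w₁ z)) = 0` iff `den (B' * B) (w₁ z) = 0`, and
if it is not zero `w₃ (mob (A' * A) z) = w₃ (mob A' (mob A z)) = mob B' (w₂ (mob A z)) = mob (B' * B) (w₁ z)`.  If
`den A z = 0` then `c ≠ 0` (`c = 0` gives `d = 0`), `a z + b = 1/(-c) ≠ 0…`, precisely `den (A' * A) z = c' (a z + b)` and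
`mob (A' * A) z = a'/c'` if `c' ≠ 0`; the same for `B, B'` at `w₁ z` (`B 1 0 ≠ 0`), and the third and fourth clauses for
`A', B', w₂, w₃` give the claim.  Infinity: `(A' * A) 1 0 = c' a + d' c`.  If `c = 0`: it is `c' a`, `a ≠ 0`, and
`B 1 0 = 0`, `(B' * B) 1 0 = B' 1 0 * B 0 0`: third clause for `A', B'`; and if `c' ≠ 0` the value is
`(a' a)/(c' a) = a'/c'`: fourth clause for `A'`.  If `c ≠ 0`: `(A' * A) 1 0 = c * den A' (a/c)`, `w₂ (a/c) = B 0 0/B 1 0`, so the third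
clause follows from the first clause for `A', B'` at the point `a/c`, and the fourth from the second clause for `A', B'`
(`(A' * A) 0 0/(A' * A) 1 0 = mob A' (a/c)`).
(2) `A⁻¹ = [[d,-b],[-c,a]]`, `den A⁻¹ y = -c y + a`.  `den A⁻¹ y = 0` iff `c ≠ 0` and `y = a/c` (if `c = 0` then `a ≠ 0`).
If `c ≠ 0`: `w₂ (a/c) = B 0 0/B 1 0`, so for `y = a/c`: `den B⁻¹ (w₂ y) = 0`, and conversely, if `den B⁻¹ (w₂ y) = 0` then
`B 1 0 ≠ 0`, `c ≠ 0`, `w₂ y = B 0 0/B 1 0 = w₂ (a/c)`, `y = a/c` (injective).  If `den A⁻¹ y ≠ 0` put `z = mob A⁻¹ y`: `den A z ≠ 0`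
(`den A (mob A⁻¹ y) * den A⁻¹ y = 1`), `mob A z = y`, so `w₂ y = mob B (w₁ z)`, `den B (w₁ z) ≠ 0`, and
`mob B⁻¹ (w₂ y) = w₁ z`.  Third clause: clear.  Fourth: if `c ≠ 0` then with `e = -d/c`, `den A e = 0`, so
`den B (w₁ e) = 0`, `w₁ e = -B 1 1/B 1 0`, and `A⁻¹ 0 0/A⁻¹ 1 0 = d/(-c) = e`.
Hypotheses: none. -/
def StI2C : Prop :=
  (∀ (A B A' B' : SL) (w₁ w₂ w₃ : ℂ ≃ₜ ℂ), Intw2 A B w₁ w₂ → Intw2 A' B' w₂ w₃ →
    Intw2 (A' * A) (B' * B) w₁ w₃) ∧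
  (∀ (A B : SL) (w₁ w₂ : ℂ ≃ₜ ℂ), Intw2 A B w₁ w₂ → Intw2 A⁻¹ B⁻¹ w₂ w₁) ∧
  (∀ (A B : SL) (w : ℂ ≃ₜ ℂ), Intw2 A B w w ↔ Intw A B w)

/-- MBC (about 100 lines)
(Moebius change of the coordinate of a deformation.)
Proof. `Bel k (pbk C μ)`: `mob C⁻¹`, `den C⁻¹` are measurable (rational functions), and
`‖d ^ 2 / conj d ^ 2‖ ≤ 1` for every complex `d` (`= 1` if `d ≠ 0`, `= 0` if `d = 0`); `0 ≤ ‖μ z‖ ≤ k`.  The
relation: for `den C z ≠ 0` (all `z` but at most one: `C 1 0 = 0` and `C 1 1 = 0` is impossible), `y = mob C z` has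
`mob C⁻¹ y = z`, `den C⁻¹ y = 1/den C z` (`den C⁻¹ (mob C z) * den C z = 1`: direct computation with `det C = 1`), so
`pbk C μ y = μ z * conj (den C z) ^ 2/(den C z) ^ 2`.  hGEV gives `C''`.  For the last clause: `hI2C (3)`: `Intw2 X Y w w`, `w = nq μ`;
`w' = nq (pbk C μ)`; `Intw2 C⁻¹ C''⁻¹ w' w` (hI2C (2)), then `Intw2 (X * C⁻¹) (Y * C''⁻¹) w' w`, then
`Intw2 (C * (X * C⁻¹)) (C'' * (Y * C''⁻¹)) w' w'` (hI2C (1)), `mul_assoc`.  `InvB`: hEQI.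
Hypotheses: hGEV hEQI (Helper68.QS) hI2C. -/
def StMBC : Prop := ∀ (k : ℝ), k < 1 → ∀ μ, Bel k μ → ∀ C : SL, Bel k (pbk C μ) ∧
  (∀ᵐ z : ℂ, pbk C μ (mob C z) * den C z ^ 2 = μ z * conj (den C z) ^ 2) ∧
  ∃ C'' : SL, Intw2 C C'' (nq μ) (nq (pbk C μ)) ∧ ∀ X Y : SL, Intw X Y (nq μ) →
    Intw (C * X * C⁻¹) (C'' * Y * C''⁻¹) (nq (pbk C μ)) ∧ InvB (C * X * C⁻¹) (pbk C μ)

/-- SWP (about 120 lines)
(Exchange of the inside and the outside of the disc.)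
Proof. `C = JJ`, `μ' = pbk JJ μ`; `JJ⁻¹ = [[0,-i],[-i,0]]`, `mob JJ⁻¹ y = y⁻¹` (also for `y = 0`: both sides are zero).
For `σ γ = [[a,b],[conj b,conj a]]` (`IsSU`): `JJ * σ γ * JJ⁻¹ = [[conj a, conj b],[b, a]] = cc σ γ`.  hMBC gives `C''`,
`Bel k μ'`, `Intw (cc σ γ) (C'' * ρ γ * C''⁻¹) (nq μ')`, `InvB (cc σ γ) μ'`, for all `γ`; `cj C'' ρ γ = C'' * ρ γ * C''⁻¹`
(definition of `Helper20.QD.cj`).  `Fuch (cc σ)`: hFPC (1).  (1) `in0`: `‖y‖ ≤ 1`: if `y ≠ 0` then `‖y⁻¹‖ ≥ 1` and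
`μ (y⁻¹) = 0` (`out0`); if `y = 0` the factor `den JJ⁻¹ 0 ^ 2/… = 0`.  (2) `out0` for `‖y‖ ≥ 1`: `‖y⁻¹‖ ≤ 1`.
Hypotheses: hFPC (Helper17.QD) hMBC. -/
def StSWP : Prop :=
  (∀ (Γ : Type) [Group Γ] (σ ρ : Γ →* SL) (μ : ℂ → ℂ) (k : ℝ), Sta σ μ k ρ →
    ∃ (μ' : ℂ → ℂ) (C : SL), StI (cc σ) μ' k (cj C ρ)) ∧
  (∀ (Γ : Type) [Group Γ] (σ ρ : Γ →* SL) (μ : ℂ → ℂ) (k : ℝ), StI σ μ k ρ →
    ∃ (μ' : ℂ → ℂ) (C : SL), Sta (cc σ) μ' k (cj C ρ))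

/-- LLF (about 150 lines)
(Facts about translation lengths.)
Proof. (1) `tr A⁻¹ = tr A` (adjugate), `tr (B A B⁻¹) = tr A`, so `sh`, `ll` of conjugate (up to inversion) elements
agree.  (2) `γ α γ⁻¹ = β` gives `γ⁻¹ β γ = α`; `γ α γ⁻¹ = β⁻¹` gives `γ⁻¹ β γ = α⁻¹`.  (3) `ll A < ε` means
`√(sh A) = sinh (ll A/2) < sinh (ε/2)`; if `sh A ≤ 0` then clear, otherwise `sh A = (√(sh A)) ^ 2`.  (4) `ε ≤ ll A`, `0 < ε`:
`√(sh A) ≥ sinh (ε/2) > 0`, so `sh A = (√(sh A))² ≥ sinh²(ε/2)`, `(Re tr A)² = 4 + 4 sh A ≥ 4 cosh²(ε/2)`,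
`‖tr A‖ ≥ |Re tr A| ≥ 2 cosh (ε/2)`.  (5) `τ = tr A`, `‖τ‖ ≥ 2`, `t n = tr (A ^ n)`: `A² = τ A - 1` (Cayley-Hamilton, `det A = 1`), so
`t (n+2) = τ t (n+1) - t n`, `‖t (n+2)‖ ≥ ‖τ‖ ‖t (n+1)‖ - ‖t n‖`; by induction `‖t (n+1)‖ ≥ ‖t n‖` (start `‖τ‖ ≥ 2 = ‖t 0‖`), so
`‖t n‖ ≥ ‖t 1‖` for `n ≥ 1`.  (6) `γ ≠ 1`: hCEN (1): `γ = α0 ^ n`, `Prim α0`, `n ≥ 1`; (4) and (5):
`‖tr (σ γ)‖ ≥ ‖tr (σ α0)‖ ≥ 2 cosh (ε/2)`.
Hypotheses: hCEN. -/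
def StLLF : Prop :=
  (∀ (Γ : Type) [Group Γ] (σ : Γ →* SL) (α β : Γ), Cj α β → ll (σ α) = ll (σ β)) ∧
  (∀ (Γ : Type) [Group Γ] (α β : Γ), Cj α β → Cj β α) ∧
  (∀ (A : SL) (ε : ℝ), ll A < ε → sh A ≤ Real.sinh (ε / 2) ^ 2) ∧
  (∀ (A : SL) (ε : ℝ), 0 < ε → ε ≤ ll A → 2 * Real.cosh (ε / 2) ≤ ‖(A : Mat).trace‖) ∧
  (∀ (A : SL) (n : ℕ), 2 ≤ ‖(A : Mat).trace‖ → 1 ≤ n →
    ‖(A : Mat).trace‖ ≤ ‖((A ^ n : SL) : Mat).trace‖) ∧
  (∀ (Γ : Type) [Group Γ] (σ : Γ →* SL) (ε : ℝ), Fuch σ → TF Γ → 0 < ε →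
    (∀ α, Prim α → ε ≤ ll (σ α)) → Thk (2 * Real.cosh (ε / 2) - 2) σ)

/-- NSH (about 100 lines)
(The number of short classes of a surface group is bounded.)
Proof. If there is no `Fuch` representation of `SurfaceGroup g` nothing is to be shown.  Otherwise fix one, `σ0`, with a
fundamental domain `F1` (hAFD), `A0 = ar2 F1`.  For every `Fuch σ`: a fundamental domain `F0` (hAFD; `FD σ F0` is
`FDOn (ad σ) (ball 0 1) F0` by definition), `∫ z in F0, 4/(1 - ‖z‖²)² = ar2 F0 = A0` (hAIN).  `N` from hNCL for `A0`.  If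
`ll (σ (a i)) < 2 arsinh (1/128)` then `sh (σ (a i)) ≤ 1/128²` (hLLF (3)).  (`TF`: hTFR.)
Hypotheses: hNCL hLLF, hAIN hAFD hTFR (Helper86.QA). -/
def StNSH : Prop := ∀ g : ℕ, 2 ≤ g → ∃ N : ℕ, ∀ σ : SurfaceGroup g →* SL, Fuch σ →
  Short σ (2 * Real.arsinh (1 / 128)) N

/-- ITI (about 120 lines)
(Induction over the short classes.)
Proof. Induction on `n`.  For `n = 0`: the conclusion holds with `σ' = σ`, `ρ' = ρ`: if `Prim α` and `ll (σ α) < ε` then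
`Short σ ε 0` for the constant family `a : Fin 1 → Γ` gives `i ≠ j` in `Fin 1`, a contradiction (`ε/2^0 = ε`);
`pressureDist U ρ ρ ≤ 0` (`PressureLE.conj ρ ρ 1`).  Step: `Short σ ε (n+1)`.  If all `Prim α` have `ε ≤ ll (σ α)` take
`σ' = σ`, `ρ' = ρ` (`ε/2^(n+1) ≤ ε`).  Otherwise let `α` with `Prim α`, `ll (σ α) < ε ≤ ε0`; the hypothesis on openings gives
`σ₁, ρ₁, κ₁, k₁`.  Claim: `Short σ₁ (ε/2) n`.  Let `a : Fin (n+1) → Γ`, `Prim (a i)`, `ll (σ₁ (a i)) < ε/2 ≤ ε1`.  Not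
`Cj α (a i)`: otherwise `ll (σ₁ (a i)) = ll (σ₁ α) ≥ ε1` (hLLF (1)).  So `ll (σ (a i)) ≤ 2 ll (σ₁ (a i)) < ε`.  The family
`Fin.cons α a : Fin (n+2) → Γ` has two different conjugate members (`Short σ ε (n+1)`); neither is the `0`-th (with
hLLF (2)), so both are in `a`.  The induction hypothesis for `σ₁`, `ε/2` (`≤ min ε0 ε1`) gives `σ', ρ'` with
`ε/2/2^n ≤ ll (σ' α)`, and the triangle inequality hSY gives
`pressureDist U ρ ρ' ≤ ofReal D + ofReal (n D) = ofReal ((n+1) D)`.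
Hypotheses: hLLF hSY. -/
def StITI : Prop := ∀ (g : ℕ) (U : (SurfaceGroup g →* SL) → Ultrafilter ℝ) (ε0 ε1 D : ℝ), 0 < ε0 →
  0 < ε1 → 0 ≤ D →
  (∀ (σ ρ : SurfaceGroup g →* SL) (κ : ℂ → ℂ) (k : ℝ) (α : SurfaceGroup g), StI σ κ k ρ →
    Prim α → ll (σ α) ≤ ε0 →
    ∃ (σ' ρ' : SurfaceGroup g →* SL) (κ' : ℂ → ℂ) (k' : ℝ), StI σ' κ' k' ρ' ∧
      pressureDist U ρ ρ' ≤ ENNReal.ofReal D ∧ ε1 ≤ ll (σ' α) ∧
      ∀ β : SurfaceGroup g, Prim β → ¬ Cj α β → ll (σ' β) ≤ ε1 → ll (σ β) ≤ 2 * ll (σ' β)) →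
  ∀ (n : ℕ) (ε : ℝ) (σ ρ : SurfaceGroup g →* SL) (κ : ℂ → ℂ) (k : ℝ), 0 < ε → ε ≤ ε0 → ε ≤ ε1 →
    StI σ κ k ρ → Short σ ε n →
    ∃ (σ' ρ' : SurfaceGroup g →* SL) (κ' : ℂ → ℂ) (k' : ℝ), StI σ' κ' k' ρ' ∧
      pressureDist U ρ ρ' ≤ ENNReal.ofReal (n * D) ∧ ∀ α, Prim α → ε / 2 ^ n ≤ ll (σ' α)

/-- ITR (about 100 lines)
(Assembly: opening of one short curve implies helper17's `StOPN`.)
Proof. Let `g ≥ 2`; `ε0, ε1, D` from hOP1, `N` from hNSH, `ε = min (min ε0 ε1) (2 arsinh (1/128)) > 0`,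
`εf = ε/2^N`, `ε' = 2 cosh (εf/2) - 2 > 0`, `C = N D`.  Let `Sta σ μ k ρ`.  hSWP (1): `StI (cc σ) μ' k (cj C1 ρ)`.
`Short (cc σ) (2 arsinh (1/128)) N` (hNSH), so `Short (cc σ) ε N` (monotone in `ε`).  hITI:
`StI σ' κ' k' ρ'`, `εf ≤ ll (σ' α)` for all `Prim α`.  hLLF (6) (`TF`: hTFR): `Thk ε' σ'`.  hSWP (2): `Sta (cc σ') μ'' k' (cj C2 ρ')`;
`Thk ε' (cc σ')` (the trace of `cc σ' γ` is the conjugate of the trace of `σ' γ`).  Distances: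
`pressureDist U ρ (cj C1 ρ) ≤ 0` and `pressureDist U ρ' (cj C2 ρ') ≤ 0` (`PressureLE.conj`), triangle inequality hSY.
Hypotheses: hOP1 hNSH hSWP hITI hLLF hSY, hTFR (Helper86.QA). -/
def StITR : Prop := StOP1 → StOPN

end Pool.Agent.Helper63.QP2
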